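import Pool.Agent.H29.FX.Targets2

/-!
# Violators of large exponent (MP_7ecdd4_nt): row W5B
-/

set_option autoImplicit false

namespace Pool.Agent.H44.FX

open Pool.Agent.H29.FX

theorem pf_W5B : T_W5B := by
  intro Q R hR hQ
  have hR0 : (0 : ℝ) < R := by linarith
  have hR2 : R ≤ R ^ 2 := by nlinarith
  have hQ0 : (0 : ℝ) < Q := by nlinarith
  have h1 : R / Q ≤ 1 := by
    rw [div_le_one hQ0]
    linarith
  have h2 : R ^ ((4 : ℝ) / 5) / Q ^ ((3 : ℝ) / 5) ≤ 1 := by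
    rw [div_le_one (Real.rpow_pos_of_pos hQ0 _)]
    have e1 : (R ^ 2) ^ ((3 : ℝ) / 5) ≤ Q ^ ((3 : ℝ) / 5) :=
      Real.rpow_le_rpow (by positivity) hQ (by norm_num)
    have e2 : (R ^ 2) ^ ((3 : ℝ) / 5) = R ^ ((6 : ℝ) / 5) := by
      rw [← Real.rpow_natCast, ← Real.rpow_mul hR0.le]
      norm_num
    have e3 : R ^ ((4 : ℝ) / 5) ≤ R ^ ((6 : ℝ) / 5) :=
      Real.rpow_le_rpow_of_exponent_le hR (by norm_num)
    rw [← e2] at e3
    exact e3.trans e1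
  have h3 : (R ^ 2 / Q) ^ ((1 : ℝ) / 5) ≤ 1 := by
    apply Real.rpow_le_one (by positivity) _ (by norm_num)
    rw [div_le_one hQ0]
    exact hQ
  have h4 : (1 : ℝ) + R / Q + R ^ ((4 : ℝ) / 5) / Q ^ ((3 : ℝ) / 5) +
      (R ^ 2 / Q) ^ ((1 : ℝ) / 5) ≤ 4 := by linarith
  have h5 := mul_le_mul_of_nonneg_left h4 hR0.le
  rw [mul_comm 4 R]
  exact h5

end Pool.Agent.H44.FX
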