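import Pool.Agent.H71.FX.Targets

/-! Row S3 of fxm_modules: one function symbol, the prefix of two universal quantifiers. -/

set_option autoImplicit false

namespace Pool.Agent.H44.FX

open Pool.Agent.H71.FX Pool.Agent.H71.PF Pool.Agent.H8.PL

/-- the term for `g` -/
def gT (i k : ℕ) (t : Tm) : Tm := .app i (k := k) (fun _ => t)

/-- the term for `f` -/
def fT (i k : ℕ) (t : Tm) : Tm := .app i (k := k) (fun j => if j.1 = 0 then t else gT i k t)

/-- words -/
def wT (i k : ℕ) : List Bool → Tm → Tm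
  | [], t => t
  | true :: w, t => gT i k (wT i k w t)
  | false :: w, t => fT i k (wT i k w t)

/-- formulas -/
def tr3 (i k : ℕ) : B2 → QF
  | .eq w w' a b => .eq (wT i k w (.var (bif a then 1 else 0))) (wT i k w' (.var (bif b then 1 else 0)))
  | .neg φ => .neg (tr3 i k φ)
  | .and φ ψ => .and (tr3 i k φ) (tr3 i k ψ)

/-- the function `g` -/
def gF {α : Type} (F : ℕ → List α → α) (i k : ℕ) (a : α) : α := F i (List.ofFn fun _ : Fin k => a)

/-- the function `f` -/
def fF {α : Type} (F : ℕ → List α → α) (i k : ℕ) (a : α) : α :=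
  F i (List.ofFn fun j : Fin k => if j.1 = 0 then a else gF F i k a)

theorem val_gT {α : Type} (F : ℕ → List α → α) (v : ℕ → α) (i k : ℕ) (t : Tm) :
    (gT i k t).val F v = gF F i k (t.val F v) := rfl

theorem val_fT {α : Type} (F : ℕ → List α → α) (v : ℕ → α) (i k : ℕ) (t : Tm) :
    (fT i k t).val F v = fF F i k (t.val F v) := by
  show F i (List.ofFn fun j : Fin k => (if j.1 = 0 then t else gT i k t).val F v) = _
  unfold fF
  congr 2
  funext j
  by_cases h : j.1 = 0
  · rw [if_pos h, if_pos h]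
  · rw [if_neg h, if_neg h]
    rfl

theorem val_wT {α : Type} (F : ℕ → List α → α) (v : ℕ → α) (i k : ℕ) (w : List Bool) (t : Tm) :
    (wT i k w t).val F v = wv (fF F i k) (gF F i k) w (t.val F v) := by
  induction w with
  | nil => rfl
  | cons b w ih =>
    cases b
    · show (fT i k (wT i k w t)).val F v = fF F i k (wv (fF F i k) (gF F i k) w (t.val F v))
      rw [val_fT, ih]
    · show (gT i k (wT i k w t)).val F v = gF F i k (wv (fF F i k) (gF F i k) w (t.val F v))
      rw [val_gT, ih]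

theorem sat_tr {α : Type} (F : ℕ → List α → α) (R : ℕ → List α → Prop) (v : ℕ → α) (i k : ℕ)
    (φ : B2) : (tr3 i k φ).Sat F R v ↔ φ.Sat (fF F i k) (gF F i k) (v 0) (v 1) := by
  induction φ with
  | eq w w' a b =>
    show (wT i k w (.var (bif a then 1 else 0))).val F v =
      (wT i k w' (.var (bif b then 1 else 0))).val F v ↔ _
    rw [val_wT, val_wT]
    show wv _ _ w (v (bif a then 1 else 0)) = wv _ _ w' (v (bif b then 1 else 0)) ↔
      wv _ _ w (bif a then v 1 else v 0) = wv _ _ w' (bif b then v 1 else v 0)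
    cases a <;> cases b <;> rfl
  | neg φ ih => exact not_congr ih
  | and φ ψ ih ih' => exact and_congr ih ih'

theorem vars_wT (i k : ℕ) (w : List Bool) (t : Tm) (ht : t.Vars 2) : (wT i k w t).Vars 2 := by
  induction w with
  | nil => exact ht
  | cons b w ih =>
    cases b
    · show ∀ j : Fin k, (if j.1 = 0 then wT i k w t else gT i k (wT i k w t)).Vars 2
      intro j
      by_cases h : j.1 = 0
      · rw [if_pos h]
        exact ih
      · rw [if_neg h]
        exact fun _ => ih
    · exact fun _ => ih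

theorem voc_wT (i k : ℕ) (w : List Bool) (t : Tm) (ht : t.Voc (fun a l => a = i ∧ l = k)) :
    (wT i k w t).Voc (fun a l => a = i ∧ l = k) := by
  induction w with
  | nil => exact ht
  | cons b w ih =>
    cases b
    · refine ⟨⟨rfl, rfl⟩, fun j => ?_⟩
      show (if j.1 = 0 then wT i k w t else gT i k (wT i k w t)).Voc (fun a l => a = i ∧ l = k)
      by_cases h : j.1 = 0
      · rw [if_pos h]
        exact ih
      · rw [if_neg h]
        exact ⟨⟨rfl, rfl⟩, fun _ => ih⟩
    · exact ⟨⟨rfl, rfl⟩, fun _ => ih⟩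

theorem vars_tr (i k : ℕ) (φ : B2) : (tr3 i k φ).Vars 2 := by
  induction φ with
  | eq w w' a b =>
    refine ⟨vars_wT i k w _ ?_, vars_wT i k w' _ ?_⟩
    · show (bif a then 1 else 0) < 2
      cases a <;> decide
    · show (bif b then 1 else 0) < 2
      cases b <;> decide
  | neg φ ih => exact ih
  | and φ ψ ih ih' => exact ⟨ih, ih'⟩

theorem voc_tr (i k : ℕ) (φ : B2) : (tr3 i k φ).Voc (fun a l => a = i ∧ l = k) 0 := by
  induction φ with
  | eq w w' a b => exact ⟨voc_wT i k w _ trivial, voc_wT i k w' _ trivial⟩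
  | neg φ ih => exact ih
  | and φ ψ ih ih' => exact ⟨ih, ih'⟩

theorem getD_ofFn {α : Type} {k : ℕ} (h : Fin k → α) (j : ℕ) (hj : j < k) (d : α) :
    (List.ofFn h).getD j d = h ⟨j, hj⟩ := by
  simp [List.getD, hj]

theorem pf_S3 : T_S3 := by
  intro φ i k hk
  refine ⟨tr3 i k φ, vars_tr i k φ, voc_tr i k φ, fun n => ⟨?_, ?_⟩⟩
  · rintro ⟨hn, F, R, hF⟩
    refine ⟨hn, fF F i k, gF F i k, fun x y => ?_⟩
    have h1 := hF (fun _ => x) x y
    have h2 : (tr3 i k φ).Sat F R
      (Function.update (Function.update (fun _ => x) 0 x) (0 + 1) y) := h1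
    rw [sat_tr] at h2
    simpa using h2
  · rintro hn ⟨f, g, hfg, hg⟩
    obtain ⟨F, hFd⟩ : ∃ F : ℕ → List (Fin n) → Fin n, F = fun _ l =>
      if l.getD 0 ⟨0, hn⟩ = l.getD 1 ⟨0, hn⟩ then g (l.getD 0 ⟨0, hn⟩) else f (l.getD 0 ⟨0, hn⟩) :=
      ⟨_, rfl⟩
    have hG : gF F i k = g := by
      funext a
      unfold gF
      rw [hFd]
      simp only
      rw [getD_ofFn _ 0 (by omega), getD_ofFn _ 1 (by omega), if_pos rfl]
    have hFf : fF F i k = f := by
      funext a
      unfold fF
      rw [hG, hFd]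
      simp only
      rw [getD_ofFn _ 0 (by omega), getD_ofFn _ 1 (by omega)]
      rw [if_pos rfl, if_neg one_ne_zero, if_neg (hg a).symm]
    refine ⟨hn, F, fun _ _ => True, fun v a b => ?_⟩
    show (tr3 i k φ).Sat F (fun _ _ => True)
      (Function.update (Function.update v 0 a) (0 + 1) b)
    rw [sat_tr, hG, hFf]
    exact hfg _ _

end Pool.Agent.H44.FX
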